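import Pool.Agent.Helper60.KS.Bilateral
import Pool.Agent.Helper60.KS.Defs

/-!
For every bounded operator `A` on a separable Hilbert space and every `r` larger than its spectral
radius, the direct sum of `A` and `r` times the bilateral shift (on `ℓ²(ℤ; E)`) has a countable chain
of closed invariant subspaces whose projections generate a maximal abelian self-adjoint algebra.
Here `E` is any separable Hilbert space with a bounded map `G : H → E` such that no nonzero vector is
killed by all `G A ^ n`; for instance `E = H` and `G = 1`, or `E = ℂ` if the adjoint of `A` is cyclic.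
-/

set_option autoImplicit false

namespace Pool.Agent.Results.MP_cc8395_an.BilateralSummand

open Pool.Agent.Helper60.KS

theorem result (H E : Type)
    [NormedAddCommGroup H] [InnerProductSpace ℂ H] [CompleteSpace H]
    [TopologicalSpace.SeparableSpace H]
    [NormedAddCommGroup E] [InnerProductSpace ℂ E] [CompleteSpace E]
    [TopologicalSpace.SeparableSpace E]
    (A : H →L[ℂ] H) (G : H →L[ℂ] E) (hG : Separates A G) (r : ℝ) (hr : RadiusLt A r) :
    ∃ T : DSum H (BiSeq E) →L[ℂ] DSum H (BiSeq E),
      IsShiftSum A r T ∧ HasCountableMasaChain T := by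
  refine ⟨dsum A ((r : ℂ) • ((bilateralShift E : L2Z E ≃L[ℂ] L2Z E) : L2Z E →L[ℂ] L2Z E)),
    fun z => ⟨rfl, fun n => rfl⟩, ?_⟩
  obtain ⟨C, h1, h2, h3, h4⟩ := bilateral A G hG r hr
  exact ⟨C, h1, ⟨h2, h3⟩, h4⟩

end Pool.Agent.Results.MP_cc8395_an.BilateralSummand
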