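import Pool.Agent.Helper60.KS.QN
import Pool.Agent.Helper60.KS.Diag
import Pool.Agent.Helper60.KS.Defs2

/-!
For every quasinilpotent operator `A` on a separable Hilbert space and every `ε > 0` there is a
quasinilpotent operator `B` of norm at most `ε` (on `ℓ²(ℤ; H)`), compact if `A` is compact, such
that the direct sum of `A` and `B` has a countable chain of closed invariant subspaces whose
projections generate a maximal abelian self-adjoint algebra.
-/

set_option autoImplicit false

namespace Pool.Agent.Results.MP_cc8395_an.QuasinilpotentSummand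

open Pool.Agent.Helper60.KS

theorem result (H : Type)
    [NormedAddCommGroup H] [InnerProductSpace ℂ H] [CompleteSpace H]
    [TopologicalSpace.SeparableSpace H]
    (A : H →L[ℂ] H) (hA : IsQuasinilpotent A) (ε : ℝ) (hε : 0 < ε) :
    ∃ B : BiSeq H →L[ℂ] BiSeq H, ‖B‖ ≤ ε ∧ IsQuasinilpotent B ∧
      (IsCompactOperator A → IsCompactOperator B) ∧ SumHasCountableMasaChain A B := by
  by_cases hc : IsCompactOperator A
  · obtain ⟨Gf, A1, A2, g1, g2, g3, g4, g5, g6⟩ := exists_semigroup A hc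
    obtain ⟨B, b1, b2, b3, C, h1, h2, h3, h4⟩ := qn_summand A hA Gf A1 A2 g1 g2 g3 g4 g5 ε hε
    exact ⟨B, b1, b2, fun _ => b3 g6, dsum A B, fun z => ⟨rfl, rfl⟩, C, h1, ⟨h2, h3⟩, h4⟩
  · obtain ⟨B, b1, b2, b3, C, h1, h2, h3, h4⟩ :=
      qn_summand A hA (fun _ => ContinuousLinearMap.id ℂ H) A A (fun _ => rfl)
        (fun _ _ _ _ _ _ _ => rfl) (fun _ _ _ => ContinuousLinearMap.norm_id_le)
        (fun _ => rfl) (fun _ => rfl) ε hε
    exact ⟨B, b1, b2, fun h => absurd h hc, dsum A B, fun z => ⟨rfl, rfl⟩, C, h1, ⟨h2, h3⟩, h4⟩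

end Pool.Agent.Results.MP_cc8395_an.QuasinilpotentSummand
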