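import Pool.Agent.Helper49.KS.Normal
import Pool.Agent.Helper49.KS.Defs

/-!
An operator with an atomic chain of closed invariant subspaces such that its compression to every
gap is similar to a normal operator has the property of the problem. In particular (one gap, from
`⊥` to `⊤`) every operator similar to a normal operator has it.
-/

set_option autoImplicit false

namespace Pool.Agent.Results.MP_cc8395_an.ScalarGaps

open Pool.Agent.Helper49.KS
open scoped InnerProductSpace

theorem result (H : Type)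
    [NormedAddCommGroup H] [InnerProductSpace ℂ H] [CompleteSpace H]
    [TopologicalSpace.SeparableSpace H] (T : H →L[ℂ] H)
    (ι : Type) (A B : ι → Submodule ℂ H)
    (hA : ∀ i, IsClosedInvariant T (A i)) (hB : ∀ i, IsClosedInvariant T (B i))
    (hAB : ∀ i, A i ≤ B i)
    (hord : ∀ i j, i ≠ j → B i ≤ A j ∨ B j ≤ A i)
    (hspan : (⨆ i, B i ⊓ (A i)ᗮ).topologicalClosure = ⊤)
    (hsim : ∀ i, GapSimilarToNormal T (A i) (B i)) :
    HasMasaChain T := by
  have hF : ∀ i, ∃ F : ℕ → Submodule ℂ H, F 0 = A i ∧ Monotone F ∧ (∀ n, F n ≤ B i) ∧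
      (∀ n, GapGood T (F n) (F (n + 1))) ∧
      ∀ v, (∀ n, inc (F n) (F (n + 1)) v = 0) → inc (A i) (B i) v = 0 := by
    intro i
    obtain ⟨K, _, _, _, N, S, c, hN, hc, hS, hrange, hTS⟩ := hsim i
    haveI := separable_of_below hc hS
    have hSm : ∀ k, S k ∈ B i ⊓ (A i)ᗮ := fun k => (hrange _).mpr ⟨k, rfl⟩
    have hbel : Below (A i) S c := by
      intro k
      rw [pj_orth (hA i).1 (hSm k).2, sub_zero]
      exact hS k
    have hid : cfcHom hN ((ContinuousMap.id ℂ).restrict (spectrum ℂ N)) = N := cfcHom_id hN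
    refine normal_gap (hA i).1 (hA i).2 (cfcHom hN)
      ((ContinuousMap.id ℂ).restrict (spectrum ℂ N)) hc hbel ?_ ?_
    · intro k
      rw [hid]; exact hTS k
    · apply le_antisymm
      · intro x hx
        have h1 : x - pj (A i) x ∈ B i ⊓ (A i)ᗮ := by
          refine ⟨Submodule.sub_mem _ hx (hAB i (pj_mem' (hA i).1 x)), ?_⟩
          rw [SetLike.mem_coe, Submodule.mem_orthogonal']
          intro w hw
          exact pj_sub_inner _ x w hw
        obtain ⟨k, hk⟩ := (hrange _).mp h1
        exact mem_im.mpr ⟨pj (A i) x, pj_mem' (hA i).1 x, k, Submodule.mem_top, by rw [hk]; abel⟩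
      · intro x hx
        obtain ⟨a, ha, k, _, rfl⟩ := mem_im.mp hx
        exact Submodule.add_mem _ (hAB i ha) (hSm k).1
  choose F h0 hmono hle hgood hfull using hF
  have key := glue (ι := ι × ℕ) (T := T) (A := fun p => F p.1 p.2)
    (B := fun p => F p.1 (p.2 + 1)) (fun p => hgood p.1 p.2) ?_ ?_
  · obtain ⟨C, _, h1, h2, h3⟩ := key
    exact ⟨C, h1, h2, h3⟩
  · rintro ⟨i, n⟩ ⟨j, m⟩ hne
    by_cases hij : i = j
    · subst hij
      have hnm : n ≠ m := fun h => hne (by rw [h])
      rcases Nat.lt_or_gt_of_ne hnm with h | h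
      · exact Or.inl (hmono i h)
      · exact Or.inr (hmono i h)
    · rcases hord i j hij with h | h
      · left
        exact (hle i (n + 1)).trans (h.trans (by rw [← h0 j]; exact hmono j (Nat.zero_le m)))
      · right
        exact (hle j (m + 1)).trans (h.trans (by rw [← h0 i]; exact hmono i (Nat.zero_le n)))
  · intro v hv
    have h1 : ∀ i, inc (A i) (B i) v = 0 := fun i => hfull i v (fun n => hv (i, n))
    have h2 : (⨆ i, B i ⊓ (A i)ᗮ) ≤ (Submodule.span ℂ {v})ᗮ := by
      refine iSup_le ?_
      intro i w hw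
      rw [Submodule.mem_orthogonal_singleton_iff_inner_right]
      have h3 : inc (A i) (B i) w = w := by
        rw [inc_apply, pj_eq_self hw.1, pj_orth (hA i).1 hw.2, sub_zero]
      rw [← h3, ← inc_sym, h1, inner_zero_left]
    have h3 : (⨆ i, B i ⊓ (A i)ᗮ).topologicalClosure ≤ (Submodule.span ℂ {v})ᗮ :=
      Submodule.topologicalClosure_minimal _ h2 (Submodule.isClosed_orthogonal _)
    rw [hspan] at h3
    have h4 : v ∈ (Submodule.span ℂ {v})ᗮ := h3 Submodule.mem_top
    rw [Submodule.mem_orthogonal_singleton_iff_inner_right] at h4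
    exact inner_self_eq_zero.mp h4

end Pool.Agent.Results.MP_cc8395_an.ScalarGaps
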